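import Mathlib

/-!
# The graph of a propositional formula and the CIS property

`cis_iff` : in a graph built from literals, pendant vertices and clause copies of the literals,
some maximal clique misses some maximal stable set if and only if the formula is satisfiable.
-/

namespace Pool.Agent.helper62.CIS

variable {V Λ J : Type*}

/-- Every maximal clique meets every maximal stable set. -/
def IsCIS (G : SimpleGraph V) : Prop :=
  ∀ C S : Set V, Maximal G.IsClique C → Maximal G.IsIndepSet S → (C ∩ S).Nonempty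

/-- The graph of a formula. -/
structure IsFormulaGraph (G : SimpleGraph V) (neg : Λ → Λ) (cl : J → Set Λ) (x b : Λ → V)
    (q : J → Λ → V) : Prop where
  neg_neg : ∀ l, neg (neg l) = l
  neg_ne : ∀ l, neg l ≠ l
  other : ∀ l, ∃ l', l' ≠ l ∧ l' ≠ neg l
  cases : ∀ u, (∃ l, u = x l) ∨ (∃ l, u = b l) ∨ ∃ j l, u = q j l
  xx : ∀ l l', G.Adj (x l) (x l') ↔ l' ≠ l ∧ l' ≠ neg l
  xb : ∀ l l', G.Adj (x l) (b l') ↔ l' = l
  bb : ∀ l l', ¬ G.Adj (b l) (b l')
  bq : ∀ l j l', ¬ G.Adj (b l) (q j l')
  xq : ∀ l j l', G.Adj (x l) (q j l') ↔ l ∉ cl j ∧ l' ≠ l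
  qq : ∀ j l j' l', G.Adj (q j l) (q j' l') ↔ j = j' ∧ l' ≠ l ∧ l' ≠ neg l

section

variable {G : SimpleGraph V}

lemma mem_of_maxClique {C : Set V} (hC : Maximal G.IsClique C) {v : V}
    (h : ∀ u ∈ C, u ≠ v → G.Adj u v) : v ∈ C := by
  have h1 : G.IsClique (insert v C) := by
    rw [SimpleGraph.isClique_insert]
    exact ⟨hC.1, fun u hu hne => (h u hu hne.symm).symm⟩
  exact hC.2 h1 (Set.subset_insert v C) (Set.mem_insert v C)

lemma mem_of_maxIndep {S : Set V} (hS : Maximal G.IsIndepSet S) {v : V}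
    (h : ∀ u ∈ S, ¬ G.Adj u v) : v ∈ S := by
  have h1 : G.IsIndepSet (insert v S) := by
    intro a ha b hb hab
    rcases Set.mem_insert_iff.1 ha with ha1 | ha1
    · rcases Set.mem_insert_iff.1 hb with hb1 | hb1
      · exact absurd (ha1.trans hb1.symm) hab
      · rw [ha1]
        exact fun h' => h b hb1 h'.symm
    · rcases Set.mem_insert_iff.1 hb with hb1 | hb1
      · rw [hb1]
        exact h a ha1
      · exact hS.1 ha1 hb1 hab
  exact hS.2 h1 (Set.subset_insert v S) (Set.mem_insert v S)

lemma not_adj_of_indep {S : Set V} (hS : G.IsIndepSet S) {u v : V} (hu : u ∈ S) (hv : v ∈ S) :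
    ¬ G.Adj u v := by
  intro h
  exact hS hu hv h.ne h

end

variable {G : SimpleGraph V} {neg : Λ → Λ} {cl : J → Set Λ} {x b : Λ → V} {q : J → Λ → V}

/-- A maximal clique missing a maximal stable set consists of literals. -/
lemma clique_sub_lit (h : IsFormulaGraph G neg cl x b q) {C S : Set V}
    (hC : Maximal G.IsClique C) (hS : Maximal G.IsIndepSet S) (hCS : ¬ (C ∩ S).Nonempty) :
    ∀ u ∈ C, ∃ l, u = x l := by
  have hd : ∀ u, u ∈ C → u ∈ S → False := fun u h1 h2 => hCS ⟨u, h1, h2⟩
  intro u hu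
  rcases h.cases u with h1 | ⟨l, rfl⟩ | ⟨j, l0, rfl⟩
  · exact h1
  · exfalso
    have hb : ∀ u ∈ C, u ≠ b l → G.Adj u (b l) := fun u hu' hne => hC.1 hu' hu hne
    have hsub : ∀ u ∈ C, u = x l ∨ u = b l := by
      intro u hu'
      by_cases hne : u = b l
      · exact Or.inr hne
      · have hadj := hb u hu' hne
        rcases h.cases u with ⟨l', rfl⟩ | ⟨l', rfl⟩ | ⟨j, l', rfl⟩
        · exact Or.inl (by rw [(h.xb _ _).1 hadj])
        · exact absurd hadj (h.bb _ _)
        · exact absurd hadj.symm (h.bq _ _ _)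
    have hx : x l ∈ C := by
      refine mem_of_maxClique hC fun u hu' hne => ?_
      rcases hsub u hu' with rfl | rfl
      · exact absurd rfl hne
      · exact ((h.xb l l).2 rfl).symm
    have hxS : x l ∉ S := fun h' => hd _ hx h'
    refine hd (b l) hu (mem_of_maxIndep hS fun u hu' hadj => ?_)
    rcases h.cases u with ⟨l', rfl⟩ | ⟨l', rfl⟩ | ⟨j, l', rfl⟩
    · have := (h.xb _ _).1 hadj
      subst this
      exact hxS hu'
    · exact h.bb _ _ hadj
    · exact h.bq _ _ _ hadj.symm
  · exfalso
    -- shape of the clique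
    have hsub : ∀ u ∈ C, (∃ l, l ∉ cl j ∧ u = x l) ∨ ∃ l, u = q j l := by
      intro u hu'
      by_cases hne : u = q j l0
      · exact Or.inr ⟨l0, hne⟩
      · have hadj := hC.1 hu' hu hne
        rcases h.cases u with ⟨l', rfl⟩ | ⟨l', rfl⟩ | ⟨j', l', rfl⟩
        · exact Or.inl ⟨l', ((h.xq _ _ _).1 hadj).1, rfl⟩
        · exact absurd hadj (h.bq _ _ _)
        · rw [((h.qq _ _ _ _).1 hadj).1]
          exact Or.inr ⟨l', rfl⟩
    have hnl : ∀ l, x l ∈ C → x (neg l) ∉ C := by
      intro l h1 h2
      by_cases he : x l = x (neg l)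
      · have := (h.xb (neg l) (neg l)).2 rfl
        rw [← he] at this
        exact h.neg_ne l ((h.xb _ _).1 this)
      · exact ((h.xx _ _).1 (hC.1 h1 h2 he)).2 rfl
    have ha1 : ∀ l, x l ∉ C → q j (neg l) ∉ C → q j l ∈ C := by
      intro l h1 h2
      refine mem_of_maxClique hC fun u hu' hne => ?_
      rcases hsub u hu' with ⟨l', hl', rfl⟩ | ⟨l', rfl⟩
      · refine (h.xq _ _ _).2 ⟨hl', fun e => h1 (e ▸ hu')⟩
      · refine (h.qq _ _ _ _).2 ⟨rfl, fun e => hne (by rw [e]), fun e => h2 ?_⟩
        rw [e, h.neg_neg]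
        exact hu'
    have ha : ∀ l, q j l ∈ C ∨ q j (neg l) ∈ C := by
      intro l
      by_cases h1 : q j (neg l) ∈ C
      · exact Or.inr h1
      · by_cases h2 : x l ∈ C
        · refine Or.inr (ha1 (neg l) (hnl l h2) fun h3 => ?_)
          rw [h.neg_neg] at h3
          exact ((h.xq _ _ _).1 (hC.1 h2 h3 (fun e => by
            have := (h.xb l l).2 rfl
            rw [e] at this
            exact h.bq _ _ _ this.symm))).2 rfl
        · exact Or.inl (ha1 l h2 h1)
    have hbb : ∀ l, l ∉ cl j → x l ∈ C ∨ q j l ∈ C := by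
      intro l hl
      by_cases h2 : q j l ∈ C
      · exact Or.inr h2
      · left
        have h1 : q j (neg l) ∈ C := (ha l).resolve_left h2
        refine mem_of_maxClique hC fun u hu' hne => ?_
        rcases hsub u hu' with ⟨l', hl', rfl⟩ | ⟨l', rfl⟩
        · refine (h.xx _ _).2 ⟨fun e => hne (by rw [e]), fun e => ?_⟩
          subst e
          rw [h.neg_neg] at h1
          exact ((h.xq _ _ _).1 (hC.1 hu' h1 (fun e => by
            have := (h.xb l' l').2 rfl
            rw [e] at this
            exact h.bq _ _ _ this.symm))).2 rfl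
        · exact ((h.xq _ _ _).2 ⟨hl, fun e => h2 (e ▸ hu')⟩).symm
    by_cases hS1 : ∃ l, l ∉ cl j ∧ x l ∈ S
    · obtain ⟨l, hl, hlS⟩ := hS1
      have hxC : x l ∉ C := fun h' => hd _ h' hlS
      have hqC : q j l ∈ C := (hbb l hl).resolve_left hxC
      by_cases h2 : neg l ∉ cl j ∧ x (neg l) ∈ S
      · have hxC' : x (neg l) ∉ C := fun h' => hd _ h' h2.2
        have hqC' : q j (neg l) ∈ C := (hbb _ h2.1).resolve_left hxC'
        have := (h.qq _ _ _ _).1 (hC.1 hqC hqC' (fun e => by
          have h3 := (h.xq l j (neg l)).2 ⟨hl, h.neg_ne l⟩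
          rw [← e] at h3
          exact ((h.xq _ _ _).1 h3).2 rfl))
        exact this.2.2 rfl
      · refine hd _ hqC (mem_of_maxIndep hS fun u hu' hadj => ?_)
        rcases h.cases u with ⟨l', rfl⟩ | ⟨l', rfl⟩ | ⟨j', l', rfl⟩
        · have h3 := (h.xq _ _ _).1 hadj
          have h4 : ¬ G.Adj (x l) (x l') := not_adj_of_indep hS.1 hlS hu'
          rw [h.xx] at h4
          have h5 : l' = neg l := by
            by_contra h6
            exact h4 ⟨fun e => h3.2 e.symm, h6⟩
          subst h5
          exact h2 ⟨h3.1, hu'⟩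
        · exact h.bq _ _ _ hadj
        · have h3 := (h.qq _ _ _ _).1 hadj
          obtain ⟨rfl, h4, _⟩ := h3
          exact not_adj_of_indep hS.1 hlS hu' ((h.xq _ _ _).2 ⟨hl, fun e => h4 e.symm⟩)
    · have hS1' : ∀ l, x l ∈ S → l ∈ cl j := by
        intro l hl
        by_contra h'
        exact hS1 ⟨l, h', hl⟩
      have hex : ∃ l, q j l ∈ S := by
        by_contra hno
        refine hno ⟨l0, mem_of_maxIndep hS fun u hu' hadj => ?_⟩
        rcases h.cases u with ⟨l', rfl⟩ | ⟨l', rfl⟩ | ⟨j', l', rfl⟩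
        · exact ((h.xq _ _ _).1 hadj).1 (hS1' l' hu')
        · exact h.bq _ _ _ hadj
        · obtain ⟨rfl, _⟩ := (h.qq _ _ _ _).1 hadj
          exact hno ⟨_, hu'⟩
      obtain ⟨l, hl⟩ := hex
      have hnl' : q j (neg l) ∈ S := by
        refine mem_of_maxIndep hS fun u hu' hadj => ?_
        rcases h.cases u with ⟨l', rfl⟩ | ⟨l', rfl⟩ | ⟨j', l', rfl⟩
        · exact ((h.xq _ _ _).1 hadj).1 (hS1' l' hu')
        · exact h.bq _ _ _ hadj
        · obtain ⟨rfl, h3, h4⟩ := (h.qq _ _ _ _).1 hadj
          refine not_adj_of_indep hS.1 hu' hl ((h.qq _ _ _ _).2 ⟨rfl, ?_, ?_⟩)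
          · intro e
            exact h4 (by rw [e])
          · intro e
            exact h3 (by rw [e, h.neg_neg])
      rcases ha l with h5 | h5
      · exact hd _ h5 hl
      · exact hd _ h5 hnl'

/-- **The reduction.** -/
theorem cis_iff [Finite V] [Nonempty Λ] (h : IsFormulaGraph G neg cl x b q) :
    IsCIS G ↔ ¬ ∃ a : Λ → Prop, (∀ l, a (neg l) ↔ ¬ a l) ∧ ∀ j, ∃ l ∈ cl j, a l := by
  constructor
  · rintro hcis ⟨a, ha, hsat⟩
    -- the clique of the true literals
    let C : Set V := {u | ∃ l, a l ∧ u = x l}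
    have hC : Maximal G.IsClique C := by
      refine ⟨?_, ?_⟩
      · rintro _ ⟨l, hl, rfl⟩ _ ⟨l', hl', rfl⟩ hne
        refine (h.xx _ _).2 ⟨fun e => hne (by rw [e]), fun e => ?_⟩
        rw [e] at hl'
        exact (ha l).1 hl' hl
      · intro D hD hCD u hu
        have hxx : ∀ l, a l → x l ≠ u → G.Adj (x l) u := fun l hl hne =>
          hD (hCD ⟨l, hl, rfl⟩) hu hne
        rcases h.cases u with ⟨l, rfl⟩ | ⟨l, rfl⟩ | ⟨j, l, rfl⟩
        · by_cases hl : a l
          · exact ⟨l, hl, rfl⟩
          · exfalso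
            have h1 : a (neg l) := (ha l).2 hl
            have h2 := hxx _ h1 (fun e => by
              have := (h.xb l l).2 rfl
              rw [← e] at this
              exact h.neg_ne l ((h.xb _ _).1 this).symm)
            exact ((h.xx _ _).1 h2).2 (h.neg_neg l).symm
        · exfalso
          obtain ⟨l', h1, h2⟩ := h.other l
          have key : ∀ l', l' ≠ l → a l' → False := by
            intro l' h1 h3
            have h4 := hxx l' h3 (fun e => by
              have := (h.xb l' l').2 rfl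
              rw [e] at this
              exact h.bb _ _ this)
            exact h1 ((h.xb _ _).1 h4).symm
          by_cases h3 : a l'
          · exact key l' h1 h3
          · refine key (neg l') (fun e => h2 ?_) ((ha l').2 h3)
            rw [← e, h.neg_neg]
        · exfalso
          obtain ⟨l', hl', hal'⟩ := hsat j
          have h4 := hxx l' hal' (fun e => by
              have := (h.xb l' l').2 rfl
              rw [e] at this
              exact h.bq _ _ _ this.symm)
          exact ((h.xq _ _ _).1 h4).1 hl'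
    have hB : G.IsIndepSet (Set.range b) := by
      rintro _ ⟨l, rfl⟩ _ ⟨l', rfl⟩ _
      exact h.bb _ _
    obtain ⟨S, hBS, hS⟩ := (Set.toFinite {S : Set V | G.IsIndepSet S}).exists_le_maximal hB
    have hS' : Maximal G.IsIndepSet S := hS
    obtain ⟨u, ⟨l, hl, rfl⟩, hu⟩ := hcis C S hC hS'
    exact not_adj_of_indep hS'.1 hu (hBS ⟨l, rfl⟩) ((h.xb _ _).2 rfl)
  · intro hunsat C S hC hS
    by_contra hCS
    have hsub := clique_sub_lit h hC hS hCS
    refine hunsat ⟨fun l => x l ∈ C, fun l => ?_, fun j => ?_⟩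
    · constructor
      · intro h1 h2
        have he : x (neg l) ≠ x l := by
          intro he
          have := (h.xb l l).2 rfl
          rw [← he] at this
          exact h.neg_ne l ((h.xb _ _).1 this).symm
        exact ((h.xx _ _).1 (hC.1 h1 h2 he)).2 (h.neg_neg l).symm
      · intro h1
        refine mem_of_maxClique hC fun u hu hne => ?_
        obtain ⟨l', rfl⟩ := hsub u hu
        refine (h.xx _ _).2 ⟨fun e => hne (by rw [e]), fun e => h1 ?_⟩
        rw [← h.neg_neg l, e, h.neg_neg]
        exact hu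
    · by_contra hno
      obtain ⟨l0⟩ := ‹Nonempty Λ›
      have key : ∀ l, x l ∉ C → False := by
        intro l hl
        have : q j l ∈ C := by
          refine mem_of_maxClique hC fun u hu hne => ?_
          obtain ⟨l', rfl⟩ := hsub u hu
          exact (h.xq _ _ _).2 ⟨fun h' => hno ⟨l', h', hu⟩, fun e => hl (e ▸ hu)⟩
        obtain ⟨l', hl'⟩ := hsub _ this
        have := (h.xb l' l').2 rfl
        rw [← hl'] at this
        exact h.bq _ _ _ this.symm
      have h1 : x l0 ∈ C := by_contra fun h1 => key l0 h1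
      have h2 : x (neg l0) ∈ C := by_contra fun h1 => key _ h1
      have he : x (neg l0) ≠ x l0 := by
        intro he
        have := (h.xb l0 l0).2 rfl
        rw [← he] at this
        exact h.neg_ne l0 ((h.xb _ _).1 this).symm
      exact ((h.xx _ _).1 (hC.1 h2 h1 he)).2 (h.neg_neg l0).symm

end Pool.Agent.helper62.CIS
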