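import Pool.Agent.helper62.CIS.Graph
import Pool.Agent.H54.PT.Sat3
import Pool.Agent.H54.PT.Enc

/-!
# Recognition of CIS graphs is co-NP-hard
-/

namespace Pool.Agent.helper62.CIS

open Pool.Agent.H54.PT N68a2faeb N793a5b8e

/-- Adjacency of the vertex with literal `lu` in the block `bu` and the vertex with literal `lv` in
the block `bv`. The block `0` contains the literals, the block `1` the pendant vertices and the
block `j + 2` the copy of the clause `j`. -/
def hadj (lit : ℕ → ℕ → ℕ) (bu lu bv lv : ℕ) : Prop :=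
  (bu = 0 ∧ bv = 0 ∧ lu / 2 ≠ lv / 2) ∨ (bu = 0 ∧ bv = 1 ∧ lu = lv) ∨
  (2 ≤ bu ∧ bu = bv ∧ lu / 2 ≠ lv / 2) ∨
  (bu = 0 ∧ 2 ≤ bv ∧ lu ≠ lv ∧ ∀ l < 3, lit (bv - 2) l ≠ lu)

/-- Adjacency of numbered vertices, for `w` literals. -/
def adjN (w : ℕ) (lit : ℕ → ℕ → ℕ) (u v : ℕ) : Prop :=
  hadj lit (u / w) (u % w) (v / w) (v % w) ∨ hadj lit (v / w) (v % w) (u / w) (u % w)

lemma hadj_irrefl (lit : ℕ → ℕ → ℕ) (b l : ℕ) : ¬ hadj lit b l b l := by
  unfold hadj
  rintro (⟨_, _, h⟩ | ⟨h, h', _⟩ | ⟨_, _, h⟩ | ⟨h, h', _⟩)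
  · exact h rfl
  · omega
  · exact h rfl
  · omega

section

variable (lit : ℕ → ℕ → ℕ) (l l' j j' : ℕ)

lemma hadj_00 : hadj lit 0 l 0 l' ↔ l / 2 ≠ l' / 2 := by simp [hadj]
lemma hadj_01 : hadj lit 0 l 1 l' ↔ l = l' := by simp [hadj]
lemma hadj_10 : ¬ hadj lit 1 l 0 l' := by simp [hadj]
lemma hadj_11 : ¬ hadj lit 1 l 1 l' := by simp [hadj]
lemma hadj_1q : ¬ hadj lit 1 l (j + 2) l' := by simp [hadj]
lemma hadj_q0 : ¬ hadj lit (j + 2) l 0 l' := by simp [hadj]
lemma hadj_q1 : ¬ hadj lit (j + 2) l 1 l' := by simp [hadj]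
lemma hadj_qq : hadj lit (j + 2) l (j' + 2) l' ↔ j = j' ∧ l / 2 ≠ l' / 2 := by simp [hadj]
lemma hadj_0q : hadj lit 0 l (j + 2) l' ↔ l ≠ l' ∧ ∀ i < 3, lit j i ≠ l := by simp [hadj]

end

/-- The graph on `N` vertices. -/
def gr (w : ℕ) (lit : ℕ → ℕ → ℕ) (N : ℕ) : SimpleGraph (Fin N) where
  Adj u v := adjN w lit u v
  symm := ⟨fun _ _ h => Or.symm h⟩
  loopless := ⟨fun u h => h.elim (hadj_irrefl _ _ _) (hadj_irrefl _ _ _)⟩

section

variable {w m : ℕ} {lit : ℕ → ℕ → ℕ}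

/-- a vertex -/
def vx (b : ℕ) (hb : b < m + 2) (l : Fin w) : Fin ((m + 2) * w) :=
  ⟨b * w + l, by
    calc b * w + l < b * w + w := Nat.add_lt_add_left l.2 _
      _ = (b + 1) * w := by ring
      _ ≤ (m + 2) * w := Nat.mul_le_mul_right _ hb⟩

lemma vx_div (b : ℕ) (hb : b < m + 2) (l : Fin w) : (vx b hb l : ℕ) / w = b := by
  have hw : 0 < w := Nat.pos_of_ne_zero (by rintro rfl; exact l.elim0)
  change (b * w + l) / w = b
  rw [Nat.add_comm, Nat.add_mul_div_right _ _ hw, Nat.div_eq_of_lt l.2, Nat.zero_add]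

lemma vx_mod (b : ℕ) (hb : b < m + 2) (l : Fin w) : (vx b hb l : ℕ) % w = l := by
  change (b * w + l) % w = l
  rw [Nat.add_comm, Nat.add_mul_mod_self_right, Nat.mod_eq_of_lt l.2]

lemma adj_vx {b b' : ℕ} {hb : b < m + 2} {hb' : b' < m + 2} {l l' : Fin w} :
    (gr w lit ((m + 2) * w)).Adj (vx b hb l) (vx b' hb' l') ↔
      hadj lit b l b' l' ∨ hadj lit b' l' b l := by
  change adjN w lit _ _ ↔ _
  unfold adjN
  rw [vx_div, vx_div, vx_mod, vx_mod]

/-- negation of literals -/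
def ng {n : ℕ} (l : Fin (2 * n)) : Fin (2 * n) := ⟨2 * ((l : ℕ) / 2) + (1 - (l : ℕ) % 2), by omega⟩

lemma isFormulaGraph (n m : ℕ) (hn : 2 ≤ n) (lit : ℕ → ℕ → ℕ) :
    IsFormulaGraph (gr (2 * n) lit ((m + 2) * (2 * n))) (ng (n := n))
      (fun j : Fin m => {l | ∃ i < 3, lit j i = l}) (vx 0 (by omega)) (vx 1 (by omega))
      (fun j => vx (j + 2) (by omega)) where
  neg_neg l := by
    apply Fin.ext
    simp only [ng]
    omega
  neg_ne l := by
    intro h
    have := congrArg Fin.val h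
    simp only [ng] at this
    omega
  other l := by
    by_cases h : (l : ℕ) / 2 = 0
    · refine ⟨⟨2, by omega⟩, ?_, ?_⟩
      · intro e
        have := congrArg Fin.val e
        simp only at this
        omega
      · intro e
        have := congrArg Fin.val e
        simp only [ng] at this
        omega
    · refine ⟨⟨0, by omega⟩, ?_, ?_⟩
      · intro e
        have := congrArg Fin.val e
        simp only at this
        omega
      · intro e
        have := congrArg Fin.val e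
        simp only [ng] at this
        omega
  cases u := by
    have hw : 0 < 2 * n := by omega
    have h1 := Nat.div_add_mod (u : ℕ) (2 * n)
    have h2 : (u : ℕ) / (2 * n) < m + 2 := (Nat.div_lt_iff_lt_mul hw).2 u.2
    have h3 := Nat.mod_lt (u : ℕ) hw
    by_cases h0 : (u : ℕ) / (2 * n) = 0
    · left
      refine ⟨⟨(u : ℕ) % (2 * n), h3⟩, Fin.ext ?_⟩
      change (u : ℕ) = 0 * (2 * n) + (u : ℕ) % (2 * n)
      rw [h0] at h1
      omega
    · by_cases h4 : (u : ℕ) / (2 * n) = 1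
      · right; left
        refine ⟨⟨(u : ℕ) % (2 * n), h3⟩, Fin.ext ?_⟩
        change (u : ℕ) = 1 * (2 * n) + (u : ℕ) % (2 * n)
        rw [h4] at h1
        omega
      · right; right
        obtain ⟨c, hc⟩ : ∃ c, (u : ℕ) / (2 * n) = c + 2 := by
          generalize (u : ℕ) / (2 * n) = d at h0 h4
          exact ⟨d - 2, by omega⟩
        refine ⟨⟨c, by omega⟩, ⟨(u : ℕ) % (2 * n), h3⟩, Fin.ext ?_⟩
        change (u : ℕ) = (c + 2) * (2 * n) + (u : ℕ) % (2 * n)
        rw [hc, mul_comm] at h1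
        exact h1.symm
  xx l l' := by
    rw [adj_vx, hadj_00, hadj_00, ne_eq, ne_eq, ne_eq, ne_eq, Fin.ext_iff, Fin.ext_iff]
    simp only [ng]
    omega
  xb l l' := by
    rw [adj_vx, Fin.ext_iff, hadj_01, eq_comm]
    simp [hadj_10]
  bb l l' := by
    rw [adj_vx]
    simp [hadj_11]
  bq l j l' := by
    rw [adj_vx]
    simp [hadj_1q, hadj_q1]
  xq l j l' := by
    rw [adj_vx, hadj_0q]
    simp only [hadj_q0, or_false, Set.mem_ofPred_eq, not_exists, not_and, ne_eq, Fin.ext_iff]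
    rw [and_comm, eq_comm]
  qq j l j' l' := by
    rw [adj_vx, hadj_qq, hadj_qq, ne_eq, ne_eq, ne_eq, ne_eq, Fin.ext_iff, Fin.ext_iff,
      Fin.ext_iff]
    simp only [ng]
    omega

lemma lsat_ng {n : ℕ} (a : ℕ → Bool) (l : Fin (2 * n)) : lsat a (ng l) ↔ ¬ lsat a l := by
  obtain ⟨l, hl⟩ := l
  change lsat a (2 * (l / 2) + (1 - l % 2)) ↔ ¬ lsat a l
  unfold lsat
  have h1 : (2 * (l / 2) + (1 - l % 2)) / 2 = l / 2 := by omega
  have h3 : (2 * (l / 2) + (1 - l % 2)) % 2 = 1 - l % 2 := by omega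
  rw [h1, h3]
  rcases Nat.mod_two_eq_zero_or_one l with h2 | h2
  · rw [h2]
    simp
  · rw [h2]
    simp

theorem isCIS_gr_iff (n m : ℕ) (hn : 2 ≤ n) (lit : ℕ → ℕ → ℕ)
    (hlit : ∀ j < m, ∀ l < 3, lit j l < 2 * n) :
    IsCIS (gr (2 * n) lit ((m + 2) * (2 * n))) ↔
      ¬ ∃ a : ℕ → Bool, ∀ j < m, ∃ l < 3, lsat a (lit j l) := by
  have : Nonempty (Fin (2 * n)) := ⟨⟨0, by omega⟩⟩
  rw [cis_iff (isFormulaGraph n m hn lit), not_iff_not]
  constructor
  · rintro ⟨a, ha, hsat⟩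
    classical
    refine ⟨fun i => if h : 2 * i + 1 < 2 * n then decide (a ⟨2 * i + 1, h⟩) else false,
      fun j hj => ?_⟩
    obtain ⟨l, ⟨i, hi, hl⟩, hal⟩ := hsat ⟨j, hj⟩
    refine ⟨i, hi, ?_⟩
    simp only at hl
    rw [hl]
    unfold lsat
    have hl2 := l.2
    have h1 : 2 * ((l : ℕ) / 2) + 1 < 2 * n := by omega
    simp only [h1, dite_true]
    rcases Nat.mod_two_eq_zero_or_one (l : ℕ) with h2 | h2
    · have h3 : (⟨2 * ((l : ℕ) / 2) + 1, h1⟩ : Fin (2 * n)) = ng l := by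
        apply Fin.ext
        simp only [ng]
        omega
      rw [h3, h2]
      have : ¬ a (ng l) := fun h => (ha l).1 h hal
      simp [this]
    · have h3 : (⟨2 * ((l : ℕ) / 2) + 1, h1⟩ : Fin (2 * n)) = l := by
        apply Fin.ext
        simp only
        omega
      rw [h3, h2]
      simp [hal]
  · rintro ⟨a, ha⟩
    refine ⟨fun l => lsat a l, fun l => ?_, fun j => ?_⟩
    · exact lsat_ng a l
    · obtain ⟨i, hi, h⟩ := ha j j.2
      exact ⟨⟨lit j i, hlit j j.2 i hi⟩, ⟨i, hi, rfl⟩, h⟩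

end

/-- The adjacency matrix of a graph, as the list of its rows. -/
noncomputable def adjMatrix {n : ℕ} (G : SimpleGraph (Fin n)) : List (List Bool) :=
  open Classical in List.ofFn fun i => List.ofFn fun j => decide (G.Adj i j)

lemma map_range_eq {α : Type*} (N : ℕ) (f : ℕ → α) :
    (List.range N).map f = List.ofFn fun i : Fin N => f i := by
  apply List.ext_getElem
  · simp
  · intro i h1 h2
    simp

lemma adjMatrix_gr (w N : ℕ) (lit : ℕ → ℕ → ℕ) [∀ i j, Decidable (adjN w lit i j)] :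
    adjMatrix (gr w lit N) =
      (List.range N).map fun i => (List.range N).map fun j => decide (adjN w lit i j) := by
  unfold adjMatrix
  rw [map_range_eq]
  congr 1
  funext i
  rw [map_range_eq]
  congr 1
  funext j
  exact decide_eq_decide.2 Iff.rfl

section cp

variable {lit : List Bool → ℕ → ℕ → ℕ}

lemma cq_hadj (hlit : Cp (fun x v => lit x (v 0) (v 1))) :
    Cq (fun x v => hadj (lit x) (v 0) (v 1) (v 2) (v 3)) := by
  have h0 : Cq (fun _ v => v 0 = 0) := Cq.eq (Cp.var 0) (Cp.const 0)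
  have h1 : Cq (fun _ v => v 2 = 0) := Cq.eq (Cp.var 2) (Cp.const 0)
  have h2 : Cq (fun _ v => v 1 / 2 ≠ v 3 / 2) :=
    Cq.ne ((Cp.var 1).div (Cp.const 2)) ((Cp.var 3).div (Cp.const 2))
  have h3 : Cq (fun _ v => v 2 = 1) := Cq.eq (Cp.var 2) (Cp.const 1)
  have h4 : Cq (fun _ v => v 1 = v 3) := Cq.eq (Cp.var 1) (Cp.var 3)
  have h5 : Cq (fun _ v => 2 ≤ v 0) := Cq.le (Cp.const 2) (Cp.var 0)
  have h6 : Cq (fun _ v => v 0 = v 2) := Cq.eq (Cp.var 0) (Cp.var 2)
  have h7 : Cq (fun _ v => 2 ≤ v 2) := Cq.le (Cp.const 2) (Cp.var 2)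
  have h8 : Cq (fun x v => ∀ l < 3, lit x (v 2 - 2) l ≠ v 1) :=
    Cq.all' (b := fun _ _ => 3) (P := fun x v l => lit x (v 2 - 2) l ≠ v 1) (Cp.const 3)
      (Cq.ne (hlit.comp2 (g := fun x j l => lit x j l) ((Cp.var 3).sub (Cp.const 2)) (Cp.var 0))
        (Cp.var 2))
  exact (h0.and (h1.and h2)).or ((h0.and (h3.and h4)).or
    ((h5.and (h6.and h2)).or (h0.and (h7.and (h4.not.and h8)))))

lemma cq_adjN {w : List Bool → ℕ} (hw : Cp (fun x _ => w x))
    (hlit : Cp (fun x v => lit x (v 0) (v 1))) :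
    Cq (fun x v => adjN (w x) (lit x) (v 1) (v 0)) := by
  have h := cq_hadj hlit
  have e1 : Cp (fun x v => v 1 / w x) := (Cp.var 1).div hw
  have e2 : Cp (fun x v => v 1 % w x) := (Cp.var 1).mod hw
  have e3 : Cp (fun x v => v 0 / w x) := (Cp.var 0).div hw
  have e4 : Cp (fun x v => v 0 % w x) := (Cp.var 0).mod hw
  exact (Cq.comp4 (g := fun x a b c d => hadj (lit x) a b c d) h e1 e2 e3 e4).or
    (Cq.comp4 (g := fun x a b c d => hadj (lit x) a b c d) h e3 e4 e1 e2)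

/-- the reduction -/
noncomputable def red (nv nc : List Bool → ℕ) (lit : List Bool → ℕ → ℕ → ℕ) (x : List Bool) :
    List (List Bool) :=
  open Classical in
  (List.range ((nc x + 2) * (2 * (nv x + 1)))).map fun i =>
    (List.range ((nc x + 2) * (2 * (nv x + 1)))).map fun j =>
      decide (adjN (2 * (nv x + 1)) (lit x) i j)

lemma de_red {nv nc : List Bool → ℕ} (hnv : Cp (fun x _ => nv x)) (hnc : Cp (fun x _ => nc x))
    (hlit : Cp (fun x v => lit x (v 0) (v 1))) : De (fun x _ => red nv nc lit x) := by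
  classical
  have hw : Cp (fun x _ => 2 * (nv x + 1)) := (Cp.const 2).mul hnv.succ
  have hN : Cp (fun x _ => (nc x + 2) * (2 * (nv x + 1))) := (hnc.add (Cp.const 2)).mul hw
  unfold red
  refine De.map (b := fun x _ => (nc x + 2) * (2 * (nv x + 1)))
    (F := fun x _ i => (List.range ((nc x + 2) * (2 * (nv x + 1)))).map fun j =>
      decide (adjN (2 * (nv x + 1)) (lit x) i j)) hN ?_
  refine De.map (b := fun x _ => (nc x + 2) * (2 * (nv x + 1)))
    (F := fun x v j => decide (adjN (2 * (nv x + 1)) (lit x) (v 0) j)) hN ?_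
  exact De.bool (cq_adjN hw hlit)

end cp

/-- Adjacency matrices of CIS graphs. -/
def cisSet : Set (List (List Bool)) :=
  {M | ∃ (n : ℕ) (G : SimpleGraph (Fin n)), M = adjMatrix G ∧ IsCIS G}

lemma adjMatrix_inj {n n' : ℕ} {G : SimpleGraph (Fin n)} {G' : SimpleGraph (Fin n')}
    (h : adjMatrix G = adjMatrix G') : ∃ e : n = n', e ▸ G = G' := by
  have hn : n = n' := by
    have := congrArg List.length h
    simpa [adjMatrix] using this
  subst hn
  refine ⟨rfl, ?_⟩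
  unfold adjMatrix at h
  have h1 := List.ofFn_injective h
  ext i j
  have h2 := List.ofFn_injective (congrFun h1 i)
  exact decide_eq_decide.1 (congrFun h2 j)

lemma adjMatrix_mem {n : ℕ} (G : SimpleGraph (Fin n)) : adjMatrix G ∈ cisSet ↔ IsCIS G := by
  constructor
  · rintro ⟨n', G', h1, h2⟩
    obtain ⟨rfl, e⟩ := adjMatrix_inj h1
    subst e
    exact h2
  · intro h
    exact ⟨n, G, rfl, h⟩

/-- **co-NP-hardness** -/
theorem hard : ∀ L ∈ coNP, ManyOneReducible L (problem cisSet) := by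
  intro L hL
  obtain ⟨nv, nc, lit, hnv, hnc, hlit, hlt, hsat⟩ := np_sat3 Lᶜ hL
  refine manyOne_problem (de_red hnv hnc hlit) fun x => ?_
  classical
  unfold red
  rw [← adjMatrix_gr, adjMatrix_mem, isCIS_gr_iff (nv x + 1) (nc x) (by have := (hlt x).2.1; omega)
    (lit x) (fun j hj l hl => by have := (hlt x).2.2 j hj l hl; omega), ← hsat x]
  rw [Pi.compl_apply]
  cases L x <;> simp

end Pool.Agent.helper62.CIS
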