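import Pool.Agent.helper62.CIS.Hard
import Pool.Agent.helper62.PairPT

/-!
# Recognition of CIS graphs is in co-NP
-/

namespace Pool.Agent.helper62.CIS

open Pool.Agent.H54.PT N68a2faeb N793a5b8e PairPT

/-! ### The code of a matrix -/

lemma getD_flatMap_range {n K : ℕ} (f : ℕ → List Bool) (hf : ∀ i < n, (f i).length = K) {p : ℕ}
    (hp : p < n * K) :
    ((List.range n).flatMap f).getD p false = (f (p / K)).getD (p % K) false ∧
      ((List.range n).flatMap f).length = n * K := by
  induction n generalizing p with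
  | zero => simp at hp
  | succ n ih =>
    have hK : 0 < K := by
      rcases Nat.eq_zero_or_pos K with h | h
      · subst h; simp at hp
      · exact h
    have hlen : ((List.range n).flatMap f).length = n * K := by
      rcases Nat.eq_zero_or_pos n with h | h
      · subst h; simp
      · exact (ih (fun i hi => hf i (by omega)) (p := 0) (Nat.mul_pos h hK)).2
    rw [List.range_succ, List.flatMap_append, List.flatMap_cons, List.flatMap_nil, List.append_nil]
    constructor
    · by_cases h : p < n * K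
      · rw [getD_append_lt (by rw [hlen]; exact h)]
        exact (ih (fun i hi => hf i (by omega)) h).1
      · obtain ⟨r, rfl⟩ : ∃ r, p = n * K + r := ⟨p - n * K, by omega⟩
        have hr : r < K := by
          have : (n + 1) * K = n * K + K := by ring
          omega
        rw [← hlen, getD_append_ge, hlen]
        have h1 : (n * K + r) / K = n := by
          rw [Nat.add_comm, Nat.add_mul_div_right _ _ hK, Nat.div_eq_of_lt hr, Nat.zero_add]
        have h2 : (n * K + r) % K = r := by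
          rw [Nat.add_comm, Nat.add_mul_mod_self_right, Nat.mod_eq_of_lt hr]
        rw [h1, h2]
    · rw [List.length_append, hlen, hf n (by omega)]
      ring

lemma length_flatMap_range {n K : ℕ} (f : ℕ → List Bool) (hf : ∀ i < n, (f i).length = K) :
    ((List.range n).flatMap f).length = n * K := by
  rcases Nat.eq_zero_or_pos (n * K) with h | h
  · rcases Nat.mul_eq_zero.1 h with rfl | rfl
    · simp
    · rw [List.length_flatMap, List.sum_eq_zero]
      · simp
      · intro x hx
        obtain ⟨i, hi, rfl⟩ := List.mem_map.1 hx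
        exact hf i (List.mem_range.1 hi)
  · exact (getD_flatMap_range f hf h).2

/-- the code of a row -/
def rowCode (n : ℕ) (b : ℕ → Bool) : List Bool :=
  (List.range n).flatMap (fun j => [true, true, true, b j, true, false]) ++ [false]

/-- the code of a matrix -/
def matCode (n : ℕ) (b : ℕ → ℕ → Bool) : List Bool :=
  (List.range n).flatMap (fun i => rowCode n (b i))

lemma length_rowCode (n : ℕ) (b : ℕ → Bool) : (rowCode n b).length = 6 * n + 1 := by
  unfold rowCode
  rw [List.length_append, length_flatMap_range (K := 6) _ (fun i _ => rfl)]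
  simp [mul_comm]

lemma length_matCode (n : ℕ) (b : ℕ → ℕ → Bool) : (matCode n b).length = n * (6 * n + 1) :=
  length_flatMap_range _ (fun i _ => length_rowCode n (b i))

/-- the bit at position `r` of the code of a row -/
def rowBit (n : ℕ) (b : ℕ → Bool) (r : ℕ) : Bool :=
  if r = 6 * n then false else if r % 6 = 3 then b (r / 6) else decide (r % 6 ≠ 5)

lemma getD_rowCode (n : ℕ) (b : ℕ → Bool) {r : ℕ} (hr : r < 6 * n + 1) :
    (rowCode n b).getD r false = rowBit n b r := by
  unfold rowCode rowBit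
  have hlen := length_flatMap_range (n := n) (K := 6)
    (fun j => [true, true, true, b j, true, false]) (fun i _ => rfl)
  by_cases h : r = 6 * n
  · rw [if_pos h, h, mul_comm, ← hlen]
    have := getD_append_ge ((List.range n).flatMap (fun j => [true, true, true, b j, true, false]))
      [false] 0
    rw [Nat.add_zero] at this
    rw [this]
    rfl
  · rw [if_neg h, getD_append_lt (by rw [hlen]; omega),
      (getD_flatMap_range (K := 6) _ (fun i _ => rfl) (by omega)).1]
    have h6 : r % 6 < 6 := Nat.mod_lt _ (by norm_num)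
    generalize r % 6 = q at *
    interval_cases q <;> simp

lemma getD_matCode (n : ℕ) (b : ℕ → ℕ → Bool) {p : ℕ} (hp : p < n * (6 * n + 1)) :
    (matCode n b).getD p false = rowBit n (b (p / (6 * n + 1))) (p % (6 * n + 1)) := by
  unfold matCode
  rw [(getD_flatMap_range (K := 6 * n + 1) _ (fun i _ => length_rowCode n (b i)) hp).1,
    getD_rowCode _ _ (Nat.mod_lt _ (by omega))]

/-- entries of the matrix coded by `x` -/
def ent (x : List Bool) (n i j : ℕ) : Bool := x.getD (i * (6 * n + 1) + (6 * j + 3)) false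

/-- `x` is the code of an `n × n` matrix -/
def Fmt (x : List Bool) (n : ℕ) : Prop :=
  x.length = n * (6 * n + 1) ∧ ∀ p < n * (6 * n + 1),
    (p % (6 * n + 1) % 6 = 3 ∨ (x.getD p false = true ↔
      (p % (6 * n + 1) ≠ 6 * n ∧ p % (6 * n + 1) % 6 ≠ 5)))

lemma ext_getD {x y : List Bool} (h : x.length = y.length)
    (h' : ∀ i < x.length, x.getD i false = y.getD i false) : x = y := by
  apply List.ext_getElem h
  intro i h1 h2
  have := h' i h1
  rwa [List.getD_eq_getElem?_getD, List.getD_eq_getElem?_getD, List.getElem?_eq_getElem h1,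
    List.getElem?_eq_getElem h2] at this

lemma fmt_iff (x : List Bool) (n : ℕ) : Fmt x n ↔ x = matCode n (ent x n) := by
  constructor
  · rintro ⟨h1, h2⟩
    refine ext_getD (by rw [h1, length_matCode]) fun p hp => ?_
    rw [h1] at hp
    rw [getD_matCode _ _ hp]
    have h3 := h2 p hp
    have h4 : p % (6 * n + 1) < 6 * n + 1 := Nat.mod_lt _ (by omega)
    have h5 := Nat.div_add_mod p (6 * n + 1)
    generalize hr : p % (6 * n + 1) = r at *
    generalize hi : p / (6 * n + 1) = i at *
    unfold rowBit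
    by_cases h6 : r = 6 * n
    · rw [if_pos h6]
      have h7 : ¬ (r % 6 = 3) := by omega
      have := h3.resolve_left h7
      rw [← Bool.not_eq_true, this]
      simp [h6]
    · rw [if_neg h6]
      by_cases h7 : r % 6 = 3
      · rw [if_pos h7]
        unfold ent
        congr 1
        rw [mul_comm i]
        omega
      · rw [if_neg h7]
        have := h3.resolve_left h7
        rw [Bool.eq_iff_iff, this]
        simp [h6]
  · intro h
    have hlen : x.length = n * (6 * n + 1) := by rw [h, length_matCode]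
    refine ⟨hlen, fun p hp => ?_⟩
    by_cases h7 : p % (6 * n + 1) % 6 = 3
    · exact Or.inl h7
    · right
      rw [h, getD_matCode _ _ hp]
      unfold rowBit
      by_cases h6 : p % (6 * n + 1) = 6 * n
      · rw [if_pos h6]
        simp [h6]
      · rw [if_neg h6, if_neg h7]
        simp [h6]

lemma ent_matCode (n : ℕ) (b : ℕ → ℕ → Bool) {i j : ℕ} (hi : i < n) (hj : j < n) :
    ent (matCode n b) n i j = b i j := by
  unfold ent
  have hlt : 6 * j + 3 < 6 * n + 1 := by omega
  have h1 : i * (6 * n + 1) + (6 * j + 3) < n * (6 * n + 1) := by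
    calc i * (6 * n + 1) + (6 * j + 3) < i * (6 * n + 1) + (6 * n + 1) := by omega
      _ = (i + 1) * (6 * n + 1) := by ring
      _ ≤ n * (6 * n + 1) := Nat.mul_le_mul_right _ hi
  rw [getD_matCode _ _ h1]
  have h2 : (i * (6 * n + 1) + (6 * j + 3)) / (6 * n + 1) = i := by
    rw [Nat.add_comm, Nat.add_mul_div_right _ _ (by omega), Nat.div_eq_of_lt hlt, Nat.zero_add]
  have h3 : (i * (6 * n + 1) + (6 * j + 3)) % (6 * n + 1) = 6 * j + 3 := by
    rw [Nat.add_comm, Nat.add_mul_mod_self_right, Nat.mod_eq_of_lt hlt]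
  rw [h2, h3]
  unfold rowBit
  rw [if_neg (by omega), if_pos (by omega)]
  congr 1
  omega

lemma bitEncode_row (n : ℕ) (b : ℕ → Bool) :
    N487b59b3.delimit (N487b59b3.bitEncode ((List.range n).map b)) = rowCode n b := by
  rw [bitEncode_word, delimit_eq, rowCode]
  congr 1
  induction List.range n with
  | nil => rfl
  | cons a l ih =>
    rw [List.map_cons, dl_trp_cons, ih, List.flatMap_cons]
    rfl

lemma bitEncode_mat (n : ℕ) (b : ℕ → ℕ → Bool) :
    N487b59b3.bitEncode ((List.range n).map fun i => (List.range n).map fun j => b i j) =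
      matCode n b := by
  rw [bitEncode_list, List.flatMap_map, matCode]
  congr 1
  funext i
  exact bitEncode_row n (b i)

/-! ### Graphs -/

lemma maxClique_iff {V : Type*} {G : SimpleGraph V} {C : Set V} :
    Maximal G.IsClique C ↔ (∀ u ∈ C, ∀ v ∈ C, u ≠ v → G.Adj u v) ∧
      ∀ v, v ∉ C → ∃ u ∈ C, ¬ G.Adj v u := by
  constructor
  · intro h
    refine ⟨fun u hu v hv huv => h.1 hu hv huv, fun v hv => ?_⟩
    by_contra hno
    push Not at hno
    exact hv (mem_of_maxClique h fun u hu _ => (hno u hu).symm)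
  · rintro ⟨h1, h2⟩
    refine ⟨fun u hu v hv huv => h1 u hu v hv huv, fun D hD hCD v hv => ?_⟩
    by_contra hno
    obtain ⟨u, hu, hadj⟩ := h2 v hno
    exact hadj (hD hv (hCD hu) (fun e => hno (e ▸ hu)))

lemma maxIndep_iff {V : Type*} {G : SimpleGraph V} {S : Set V} :
    Maximal G.IsIndepSet S ↔ (∀ u ∈ S, ∀ v ∈ S, ¬ G.Adj u v) ∧
      ∀ v, v ∉ S → ∃ u ∈ S, G.Adj v u := by
  constructor
  · intro h
    refine ⟨fun u hu v hv => not_adj_of_indep h.1 hu hv, fun v hv => ?_⟩
    by_contra hno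
    push Not at hno
    exact hv (mem_of_maxIndep h fun u hu h' => hno u hu h'.symm)
  · rintro ⟨h1, h2⟩
    refine ⟨fun u hu v hv _ => h1 u hu v hv, fun D hD hCD v hv => ?_⟩
    by_contra hno
    obtain ⟨u, hu, hadj⟩ := h2 v hno
    exact hD hv (hCD hu) hadj.ne hadj

open Classical in
/-- entries of the adjacency matrix -/
noncomputable def bG {n : ℕ} (G : SimpleGraph (Fin n)) (i j : ℕ) : Bool :=
  if h : i < n ∧ j < n then decide (G.Adj ⟨i, h.1⟩ ⟨j, h.2⟩) else false

lemma bG_eq {n : ℕ} (G : SimpleGraph (Fin n)) (i j : Fin n) : bG G i j = true ↔ G.Adj i j := by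
  unfold bG
  rw [dif_pos ⟨i.2, j.2⟩]
  simp

lemma code_adjMatrix {n : ℕ} (G : SimpleGraph (Fin n)) :
    N487b59b3.bitEncode (adjMatrix G) = matCode n (bG G) := by
  rw [← bitEncode_mat]
  congr 1
  unfold adjMatrix
  rw [map_range_eq]
  congr 1
  funext i
  rw [map_range_eq]
  congr 1
  funext j
  rw [Bool.eq_iff_iff, bG_eq]
  simp

/-- `x` is the code of the adjacency matrix of a graph with `n` vertices -/
def Valid (x : List Bool) (n : ℕ) : Prop :=
  Fmt x n ∧ (∀ i < n, ¬ ent x n i i = true) ∧ ∀ i < n, ∀ j < n, ent x n i j = true →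
    ent x n j i = true

lemma valid_iff (x : List Bool) (n : ℕ) :
    Valid x n ↔ ∃ G : SimpleGraph (Fin n), x = N487b59b3.bitEncode (adjMatrix G) := by
  constructor
  · rintro ⟨h1, h2, h3⟩
    let G : SimpleGraph (Fin n) :=
      { Adj := fun i j => ent x n i j = true
        symm := ⟨fun i j h => h3 i i.2 j j.2 h⟩
        loopless := ⟨fun i h => h2 i i.2 h⟩ }
    refine ⟨G, ?_⟩
    rw [code_adjMatrix, (fmt_iff x n).1 h1, ← bitEncode_mat, ← bitEncode_mat, map_range_eq,
      map_range_eq]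
    congr 2
    funext i
    rw [map_range_eq, map_range_eq]
    congr 1
    funext j
    rw [Bool.eq_iff_iff, bG_eq]
  · rintro ⟨G, hG⟩
    rw [code_adjMatrix] at hG
    have he : ∀ i j : Fin n, ent x n i j = true ↔ G.Adj i j := by
      intro i j
      rw [hG, ent_matCode _ _ i.2 j.2, bG_eq]
    refine ⟨(fmt_iff x n).2 ?_, fun i hi h => ?_, fun i hi j hj h => ?_⟩
    · rw [← bitEncode_mat]
      have h1 := hG
      rw [← bitEncode_mat] at h1
      conv_lhs => rw [h1]
      congr 1
      rw [map_range_eq, map_range_eq]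
      congr 1
      funext i
      rw [map_range_eq, map_range_eq]
      congr 1
      funext j
      rw [Bool.eq_iff_iff, bG_eq, he]
    · exact G.loopless.irrefl _ ((he ⟨i, hi⟩ ⟨i, hi⟩).1 h)
    · exact (he ⟨j, hj⟩ ⟨i, hi⟩).2 ((he ⟨i, hi⟩ ⟨j, hj⟩).1 h).symm

lemma ent_of_code {n : ℕ} {G : SimpleGraph (Fin n)} {x : List Bool}
    (h : x = N487b59b3.bitEncode (adjMatrix G)) (i j : Fin n) :
    ent x n i j = true ↔ G.Adj i j := by
  rw [h, code_adjMatrix, ent_matCode _ _ i.2 j.2, bG_eq]

/-- the bits of `y` give a maximal clique and a maximal stable set that are disjoint -/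
def Wit (x y : List Bool) (n : ℕ) : Prop :=
  (∀ i < n, ∀ j < n, y.getD i false = true → y.getD j false = true → i ≠ j →
    ent x n i j = true) ∧
  (∀ i < n, ¬ y.getD i false = true → ∃ j < n, y.getD j false = true ∧ ¬ ent x n i j = true) ∧
  (∀ i < n, ∀ j < n, y.getD (n + i) false = true → y.getD (n + j) false = true →
    ¬ ent x n i j = true) ∧
  (∀ i < n, ¬ y.getD (n + i) false = true → ∃ j < n, y.getD (n + j) false = true ∧
    ent x n i j = true) ∧
  ∀ i < n, ¬ (y.getD i false = true ∧ y.getD (n + i) false = true)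

/-- the verifier -/
def Ver (x y : List Bool) : Prop :=
  (¬ ∃ n < x.length + 1, Valid x n) ∨ ∃ n < x.length + 1, Valid x n ∧ Wit x y n

lemma not_isCIS_iff {n : ℕ} {G : SimpleGraph (Fin n)} {x : List Bool}
    (h : x = N487b59b3.bitEncode (adjMatrix G)) :
    ¬ IsCIS G ↔ ∃ y : List Bool, y.length ≤ 2 * n ∧ Wit x y n := by
  classical
  have he := ent_of_code h
  unfold IsCIS
  push Not
  constructor
  · rintro ⟨C, S, hC, hS, hd⟩
    have hd' : ∀ u, ¬ (u ∈ C ∧ u ∈ S) := fun u hu => by
      have : u ∈ C ∩ S := hu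
      rw [hd] at this
      exact this
    rw [maxClique_iff] at hC
    rw [maxIndep_iff] at hS
    let y : List Bool := (List.range (2 * n)).map fun k =>
      if h : k < n then decide ((⟨k, h⟩ : Fin n) ∈ C)
      else if h' : k - n < n then decide ((⟨k - n, h'⟩ : Fin n) ∈ S) else false
    have hy : ∀ k < 2 * n, y.getD k false = if h : k < n then decide ((⟨k, h⟩ : Fin n) ∈ C)
      else if h' : k - n < n then decide ((⟨k - n, h'⟩ : Fin n) ∈ S) else false := by
      intro k hk
      rw [List.getD_eq_getElem?_getD, List.getElem?_map, List.getElem?_range hk]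
      rfl
    have hyC : ∀ i (hi : i < n), y.getD i false = true ↔ (⟨i, hi⟩ : Fin n) ∈ C := by
      intro i hi
      rw [hy i (by omega), dif_pos hi, decide_eq_true_eq]
    have hyS : ∀ i (hi : i < n), y.getD (n + i) false = true ↔ (⟨i, hi⟩ : Fin n) ∈ S := by
      intro i hi
      have h1 : n + i - n = i := by omega
      rw [hy (n + i) (by omega), dif_neg (by omega)]
      simp only [h1, dif_pos hi, decide_eq_true_eq]
    refine ⟨y, by simp [y], ?_, ?_, ?_, ?_, ?_⟩
    · intro i hi j hj h1 h2 h3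
      exact (he ⟨i, hi⟩ ⟨j, hj⟩).2 (hC.1 _ ((hyC i hi).1 h1) _ ((hyC j hj).1 h2)
        (fun e => h3 (congrArg Fin.val e)))
    · intro i hi h1
      obtain ⟨u, hu, h2⟩ := hC.2 ⟨i, hi⟩ (fun h' => h1 ((hyC i hi).2 h'))
      exact ⟨u, u.2, (hyC u u.2).2 hu, fun h' => h2 ((he ⟨i, hi⟩ u).1 h')⟩
    · intro i hi j hj h1 h2 h3
      exact hS.1 _ ((hyS i hi).1 h1) _ ((hyS j hj).1 h2) ((he ⟨i, hi⟩ ⟨j, hj⟩).1 h3)
    · intro i hi h1
      obtain ⟨u, hu, h2⟩ := hS.2 ⟨i, hi⟩ (fun h' => h1 ((hyS i hi).2 h'))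
      exact ⟨u, u.2, (hyS u u.2).2 hu, (he ⟨i, hi⟩ u).2 h2⟩
    · rintro i hi ⟨h1, h2⟩
      exact hd' _ ⟨(hyC i hi).1 h1, (hyS i hi).1 h2⟩
  · rintro ⟨y, _, h1, h2, h3, h4, h5⟩
    refine ⟨{u | y.getD u false = true}, {u | y.getD (n + u) false = true}, ?_, ?_, ?_⟩
    · rw [maxClique_iff]
      refine ⟨fun u hu v hv huv => (he u v).1 (h1 u u.2 v v.2 hu hv
        (fun e => huv (Fin.ext e))), fun v hv => ?_⟩
      obtain ⟨j, hj, h6, h7⟩ := h2 v v.2 hv
      exact ⟨⟨j, hj⟩, h6, fun h' => h7 ((he v ⟨j, hj⟩).2 h')⟩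
    · rw [maxIndep_iff]
      refine ⟨fun u hu v hv h' => h3 u u.2 v v.2 hu hv ((he u v).2 h'), fun v hv => ?_⟩
      obtain ⟨j, hj, h6, h7⟩ := h4 v v.2 hv
      exact ⟨⟨j, hj⟩, h6, (he v ⟨j, hj⟩).1 h7⟩
    · rw [Set.eq_empty_iff_forall_notMem]
      rintro u ⟨h6, h7⟩
      exact h5 u u.2 ⟨h6, h7⟩

lemma n_unique {n n' : ℕ} (h : n * (6 * n + 1) = n' * (6 * n' + 1)) : n = n' := by
  rcases lt_trichotomy n n' with h1 | h1 | h1
  · exfalso
    have : n * (6 * n + 1) < n' * (6 * n' + 1) := Nat.mul_lt_mul'' h1 (by omega)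
    omega
  · exact h1
  · exfalso
    have : n' * (6 * n' + 1) < n * (6 * n + 1) := Nat.mul_lt_mul'' h1 (by omega)
    omega

lemma le_length {x : List Bool} {n : ℕ} (h : Valid x n) : n ≤ x.length := by
  rw [h.1.1]
  exact Nat.le_mul_of_pos_right n (by omega)

/-- `x` is the code of the adjacency matrix of a CIS graph -/
def IsCISCode (x : List Bool) : Prop :=
  ∃ (n : ℕ) (G : SimpleGraph (Fin n)), x = N487b59b3.bitEncode (adjMatrix G) ∧ IsCIS G

theorem not_isCISCode_iff (x : List Bool) :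
    ¬ IsCISCode x ↔ ∃ y : List Bool, y.length ≤ (2 * Polynomial.X : Polynomial ℕ).eval x.length ∧
      Ver x y := by
  have hp : (2 * Polynomial.X : Polynomial ℕ).eval x.length = 2 * x.length := by simp
  rw [hp]
  constructor
  · intro h
    by_cases hv : ∃ n, Valid x n
    · obtain ⟨n, hn⟩ := hv
      obtain ⟨G, hG⟩ := (valid_iff x n).1 hn
      have hle := le_length hn
      obtain ⟨y, hy, hw⟩ := (not_isCIS_iff hG).1 (fun h' => h ⟨n, G, hG, h'⟩)
      exact ⟨y, by omega, Or.inr ⟨n, by omega, hn, hw⟩⟩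
    · exact ⟨[], by simp, Or.inl fun ⟨n, _, hn⟩ => hv ⟨n, hn⟩⟩
  · rintro ⟨y, _, hV⟩ ⟨n, G, hG, hcis⟩
    have hn : Valid x n := (valid_iff x n).2 ⟨G, hG⟩
    rcases hV with h | ⟨n', _, hn', hw⟩
    · exact h ⟨n, by have := le_length hn; omega, hn⟩
    · have : n' = n := n_unique (by rw [← hn'.1.1, ← hn.1.1])
      subst this
      obtain ⟨h1, h2, h3, h4, h5⟩ := hw
      let y' := (List.range (2 * n')).map fun k => y.getD k false
      have hy' : ∀ k < 2 * n', y'.getD k false = y.getD k false := by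
        intro k hk
        rw [List.getD_eq_getElem?_getD, List.getElem?_map, List.getElem?_range hk]
        rfl
      refine (not_isCIS_iff hG).2 ⟨y', by simp [y'], ?_, ?_, ?_, ?_, ?_⟩ hcis
      · intro i hi j hj
        rw [hy' i (by omega), hy' j (by omega)]
        exact h1 i hi j hj
      · intro i hi h6
        rw [hy' i (by omega)] at h6
        obtain ⟨j, hj, h7, h8⟩ := h2 i hi h6
        exact ⟨j, hj, by rw [hy' j (by omega)]; exact h7, h8⟩
      · intro i hi j hj
        rw [hy' _ (by omega), hy' _ (by omega)]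
        exact h3 i hi j hj
      · intro i hi h6
        rw [hy' _ (by omega)] at h6
        obtain ⟨j, hj, h7, h8⟩ := h4 i hi h6
        exact ⟨j, hj, by rw [hy' _ (by omega)]; exact h7, h8⟩
      · intro i hi
        rw [hy' _ (by omega), hy' _ (by omega)]
        exact h5 i hi

/-! ### The verifier is polynomial -/

section cq

lemma cq_ent {a b c : List Bool → List Bool → (ℕ → ℕ) → ℕ} (ha : Cp2 a) (hb : Cp2 b)
    (hc : Cp2 c) : Cq2 (fun x y v => ent x (a x y v) (b x y v) (c x y v) = true) := by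
  unfold ent
  exact Cq2.xbit ((hb.mul (((Cp2.const 6).mul ha).add (Cp2.const 1))).add
    (((Cp2.const 6).mul hc).add (Cp2.const 3)))

lemma cq_fmt : Cq2 (fun x _ v => Fmt x (v 0)) := by
  unfold Fmt
  have hK : Cp2 (fun _ _ v => v 0 * (6 * v 0 + 1)) :=
    (Cp2.var 0).mul (((Cp2.const 6).mul (Cp2.var 0)).add (Cp2.const 1))
  refine (Cq2.eq Cp2.xlen hK).and (Cq2.all (P := fun x _ v p => (p % (6 * v 0 + 1) % 6 = 3 ∨
    (x.getD p false = true ↔ (p % (6 * v 0 + 1) ≠ 6 * v 0 ∧ p % (6 * v 0 + 1) % 6 ≠ 5)))) hK ?_)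
  have hr : Cp2 (fun _ _ v => v 0 % (6 * v 1 + 1)) :=
    (Cp2.var 0).mod (((Cp2.const 6).mul (Cp2.var 1)).add (Cp2.const 1))
  refine (Cq2.eq (hr.mod (Cp2.const 6)) (Cp2.const 3)).or ((Cq2.xbit (Cp2.var 0)).iff
    ((Cq2.eq hr ((Cp2.const 6).mul (Cp2.var 1))).not.and
      (Cq2.eq (hr.mod (Cp2.const 6)) (Cp2.const 5)).not))

lemma cq_valid : Cq2 (fun x _ v => Valid x (v 0)) := by
  unfold Valid
  refine cq_fmt.and (Cq2.and ?_ ?_)
  · exact Cq2.all (P := fun x _ v i => ¬ ent x (v 0) i i = true) (Cp2.var 0)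
      (cq_ent (Cp2.var 1) (Cp2.var 0) (Cp2.var 0)).not
  · refine Cq2.all (P := fun x _ v i => ∀ j < v 0, ent x (v 0) i j = true →
      ent x (v 0) j i = true) (Cp2.var 0) ?_
    refine Cq2.all (P := fun x _ v j => ent x (v 1) (v 0) j = true →
      ent x (v 1) j (v 0) = true) (Cp2.var 1) ?_
    exact (cq_ent (Cp2.var 2) (Cp2.var 1) (Cp2.var 0)).imp
      (cq_ent (Cp2.var 2) (Cp2.var 0) (Cp2.var 1))

lemma cq_wit : Cq2 (fun x y v => Wit x y (v 0)) := by
  unfold Wit
  refine Cq2.and ?_ (Cq2.and ?_ (Cq2.and ?_ (Cq2.and ?_ ?_)))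
  · refine Cq2.all (P := fun x y v i => ∀ j < v 0, y.getD i false = true →
      y.getD j false = true → i ≠ j → ent x (v 0) i j = true) (Cp2.var 0) ?_
    refine Cq2.all (P := fun x y v j => y.getD (v 0) false = true →
      y.getD j false = true → v 0 ≠ j → ent x (v 1) (v 0) j = true) (Cp2.var 1) ?_
    exact (Cq2.ybit (Cp2.var 1)).imp ((Cq2.ybit (Cp2.var 0)).imp
      ((Cq2.eq (Cp2.var 1) (Cp2.var 0)).not.imp (cq_ent (Cp2.var 2) (Cp2.var 1) (Cp2.var 0))))
  · refine Cq2.all (P := fun x y v i => ¬ y.getD i false = true → ∃ j < v 0,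
      y.getD j false = true ∧ ¬ ent x (v 0) i j = true) (Cp2.var 0) ?_
    refine (Cq2.ybit (Cp2.var 0)).not.imp (Cq2.ex (P := fun x y v j =>
      y.getD j false = true ∧ ¬ ent x (v 1) (v 0) j = true) (Cp2.var 1) ?_)
    exact (Cq2.ybit (Cp2.var 0)).and (cq_ent (Cp2.var 2) (Cp2.var 1) (Cp2.var 0)).not
  · refine Cq2.all (P := fun x y v i => ∀ j < v 0, y.getD (v 0 + i) false = true →
      y.getD (v 0 + j) false = true → ¬ ent x (v 0) i j = true) (Cp2.var 0) ?_
    refine Cq2.all (P := fun x y v j => y.getD (v 1 + v 0) false = true →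
      y.getD (v 1 + j) false = true → ¬ ent x (v 1) (v 0) j = true) (Cp2.var 1) ?_
    exact (Cq2.ybit ((Cp2.var 2).add (Cp2.var 1))).imp
      ((Cq2.ybit ((Cp2.var 2).add (Cp2.var 0))).imp
        (cq_ent (Cp2.var 2) (Cp2.var 1) (Cp2.var 0)).not)
  · refine Cq2.all (P := fun x y v i => ¬ y.getD (v 0 + i) false = true → ∃ j < v 0,
      y.getD (v 0 + j) false = true ∧ ent x (v 0) i j = true) (Cp2.var 0) ?_
    refine (Cq2.ybit ((Cp2.var 1).add (Cp2.var 0))).not.imp (Cq2.ex (P := fun x y v j =>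
      y.getD (v 1 + j) false = true ∧ ent x (v 1) (v 0) j = true) (Cp2.var 1) ?_)
    exact (Cq2.ybit ((Cp2.var 2).add (Cp2.var 0))).and
      (cq_ent (Cp2.var 2) (Cp2.var 1) (Cp2.var 0))
  · refine Cq2.all (P := fun x y v i => ¬ (y.getD i false = true ∧
      y.getD (v 0 + i) false = true)) (Cp2.var 0) ?_
    exact ((Cq2.ybit (Cp2.var 0)).and (Cq2.ybit ((Cp2.var 1).add (Cp2.var 0)))).not

lemma cq_ver : Cq2 (fun x y _ => Ver x y) := by
  unfold Ver
  have hb : Cp2 (fun x _ _ => x.length + 1) := Cp2.xlen.add (Cp2.const 1)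
  exact (Cq2.ex (P := fun x _ _ n => Valid x n) hb cq_valid).not.or
    (Cq2.ex (P := fun x y _ n => Valid x n ∧ Wit x y n) hb (cq_valid.and cq_wit))

end cq

open Classical in
/-- the decision problem -/
noncomputable def cisProblem : DecisionProblem := fun x => decide (IsCISCode x)

theorem mem_coNP : cisProblem ∈ coNP := by
  refine mem_NP (V := Ver) (2 * Polynomial.X) cq_ver fun x => ?_
  rw [← not_isCISCode_iff, Pi.compl_apply]
  unfold cisProblem
  by_cases h : IsCISCode x <;> simp [h]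

theorem hard' : ∀ L ∈ coNP, ManyOneReducible L cisProblem := by
  intro L hL
  obtain ⟨nv, nc, lit, hnv, hnc, hlit, hlt, hsat⟩ := np_sat3 Lᶜ hL
  refine manyOne (de_red hnv hnc hlit) fun x => ?_
  rw [Bool.eq_iff_iff]
  have h1 : cisProblem (N487b59b3.bitEncode (red nv nc lit x)) = true ↔
      red nv nc lit x ∈ cisSet := by
    unfold cisProblem IsCISCode cisSet
    simp only [decide_eq_true_eq, Set.mem_ofPred_eq]
    constructor
    · rintro ⟨n, G, h1, h2⟩
      exact ⟨n, G, N487b59b3.bitEncode_injective h1, h2⟩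
    · rintro ⟨n, G, h1, h2⟩
      exact ⟨n, G, by rw [h1], h2⟩
  rw [h1]
  classical
  unfold red
  rw [← adjMatrix_gr, adjMatrix_mem, isCIS_gr_iff (nv x + 1) (nc x) (by have := (hlt x).2.1; omega)
    (lit x) (fun j hj l hl => by have := (hlt x).2.2 j hj l hl; omega), ← hsat x]
  rw [Pi.compl_apply]
  cases L x <;> simp

end Pool.Agent.helper62.CIS
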